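import Mathlib

/-! More than half of the symmetric tables over `𝔽₃` have a weighted Laplace matrix of full rank. -/

set_option autoImplicit false

namespace Pool.Agent.H47.SH

/-- the symbol of the pair `i ≠ j` of a table (symmetric) -/
def sym {k : ℕ} (s : {x : Fin k × Fin k // x.1 < x.2} → ZMod 3) (i j : Fin k) : ZMod 3 :=
  if h : i < j then s ⟨(i, j), h⟩ else if h : j < i then s ⟨(j, i), h⟩ else 0

/-- the weighted Laplace matrix of the table has only the constant vectors in its kernel -/
def NS {k : ℕ} (e : Fin k → ZMod 3) (s : {x : Fin k × Fin k // x.1 < x.2} → ZMod 3) : Prop :=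
  ∀ y : Fin k → ZMod 3, (∀ t, ∑ i, e i * e t * sym s i t * (y i - y t) = 0) → ∀ i j, y i = y j

lemma sym_add {k : ℕ} (s s' : {x : Fin k × Fin k // x.1 < x.2} → ZMod 3) (i j : Fin k) :
    sym (s + s') i j = sym s i j + sym s' i j := by
  unfold sym; split_ifs <;> simp

lemma sym_zero {k : ℕ} (i j : Fin k) :
    sym (0 : {x : Fin k × Fin k // x.1 < x.2} → ZMod 3) i j = 0 := by
  unfold sym; split_ifs <;> simp

lemma sym_comm {k : ℕ} (s : {x : Fin k × Fin k // x.1 < x.2} → ZMod 3) (i j : Fin k) :
    sym s i j = sym s j i := by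
  unfold sym
  rcases lt_trichotomy i j with h | h | h
  · rw [dif_pos h, dif_neg (not_lt.2 h.le), dif_pos h]
  · subst h; rfl
  · rw [dif_neg (not_lt.2 h.le), dif_pos h, dif_pos h]

/-- the Laplace map for a fixed vector `y` -/
def lap {k : ℕ} (e y : Fin k → ZMod 3) :
    ({x : Fin k × Fin k // x.1 < x.2} → ZMod 3) →+ (Fin k → ZMod 3) where
  toFun s t := ∑ i, e i * e t * sym s i t * (y i - y t)
  map_zero' := by funext t; simp [sym_zero]
  map_add' s s' := by
    funext t
    simp only [Pi.add_apply, sym_add, ← Finset.sum_add_distrib]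
    refine Finset.sum_congr rfl fun i _ => ?_
    ring

/-- the elementary table of a pair -/
def el {k : ℕ} (a b : Fin k) (c : ZMod 3) : {x : Fin k × Fin k // x.1 < x.2} → ZMod 3 :=
  fun x => if (x.1.1 = a ∧ x.1.2 = b) ∨ (x.1.1 = b ∧ x.1.2 = a) then c else 0

lemma sym_el {k : ℕ} (a b : Fin k) (hab : a ≠ b) (c : ZMod 3) (i j : Fin k) :
    sym (el a b c) i j = if (i = a ∧ j = b) ∨ (i = b ∧ j = a) then c else 0 := by
  unfold sym el
  rcases lt_trichotomy i j with h | h | h
  · rw [dif_pos h]
  · subst h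
    simp only [lt_self_iff_false, dite_false]
    rw [if_neg]
    rintro (⟨rfl, h⟩ | ⟨rfl, h⟩)
    · exact hab h
    · exact hab h.symm
  · rw [dif_neg (not_lt.2 h.le), dif_pos h]
    simp only
    congr 1
    apply propext
    tauto

lemma lap_el {k : ℕ} (e y : Fin k → ZMod 3) (a b : Fin k) (hab : a ≠ b) (c : ZMod 3) :
    lap e y (el a b c) = Pi.single b (e a * e b * c * (y a - y b)) -
      Pi.single a (e a * e b * c * (y a - y b)) := by
  funext t
  show ∑ i, e i * e t * sym (el a b c) i t * (y i - y t) = _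
  simp only [sym_el a b hab]
  by_cases hb : t = b
  · subst hb
    rw [Finset.sum_eq_single a]
    · simp [hab.symm]
    · intro i _ hi
      rw [if_neg]
      · ring
      · rintro (⟨h, -⟩ | ⟨-, h⟩)
        · exact hi h
        · exact hab h.symm
    · intro h; exact absurd (Finset.mem_univ _) h
  · by_cases ha : t = a
    · subst ha
      rw [Finset.sum_eq_single b]
      · simp [hab]
        ring
      · intro i _ hi
        rw [if_neg]
        · ring
        · rintro (⟨-, h⟩ | ⟨h, -⟩)
          · exact hb h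
          · exact hi h
      · intro h; exact absurd (Finset.mem_univ _) h
    · rw [Finset.sum_eq_zero]
      · simp [ha, hb]
      · intro i _
        rw [if_neg]
        · ring
        · rintro (⟨-, h⟩ | ⟨-, h⟩)
          · exact hb h
          · exact ha h

/-- `c (1_b - 1_a)` is in the image if `y a ≠ y b` -/
lemma mem_edge {k : ℕ} (e y : Fin k → ZMod 3) (he : ∀ i, e i ≠ 0) (a b : Fin k)
    (hy : y a ≠ y b) (c : ZMod 3) :
    ∃ s, lap e y s = Pi.single b c - Pi.single a c := by
  have : Fact (Nat.Prime 3) := ⟨Nat.prime_three⟩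
  have hab : a ≠ b := fun h => hy (by rw [h])
  have hne : e a * e b * (y a - y b) ≠ 0 :=
    mul_ne_zero (mul_ne_zero (he a) (he b)) (sub_ne_zero.2 hy)
  refine ⟨el a b (c * (e a * e b * (y a - y b))⁻¹), ?_⟩
  rw [lap_el e y a b hab]
  have : e a * e b * (c * (e a * e b * (y a - y b))⁻¹) * (y a - y b) = c := by
    have h2 : e a * e b * (c * (e a * e b * (y a - y b))⁻¹) * (y a - y b) =
        c * ((e a * e b * (y a - y b)) * (e a * e b * (y a - y b))⁻¹) := by ring
    rw [h2, mul_inv_cancel₀ hne, mul_one]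
  rw [this]

lemma mem_star {k : ℕ} (e y : Fin (k + 1) → ZMod 3) (he : ∀ i, e i ≠ 0) (m : Fin (k + 1))
    (hm : y m ≠ y 0) (t : Fin (k + 1)) (c : ZMod 3) :
    ∃ s, lap e y s = Pi.single t c - Pi.single 0 c := by
  by_cases ht : y t = y 0
  · obtain ⟨s₁, h₁⟩ := mem_edge e y he m t (by rw [ht]; exact hm) c
    obtain ⟨s₂, h₂⟩ := mem_edge e y he 0 m hm.symm c
    refine ⟨s₁ + s₂, ?_⟩
    rw [map_add, h₁, h₂]
    abel
  · exact mem_edge e y he 0 t (fun h => ht h.symm) c

/-- the Laplace map, without the coordinate `0` -/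
def lap' {k : ℕ} (e y : Fin (k + 1) → ZMod 3) :
    ({x : Fin (k + 1) × Fin (k + 1) // x.1 < x.2} → ZMod 3) →+ (Fin k → ZMod 3) where
  toFun s t := lap e y s t.succ
  map_zero' := by funext t; simp
  map_add' s s' := by funext t; simp

lemma lap'_surj {k : ℕ} (e y : Fin (k + 1) → ZMod 3) (he : ∀ i, e i ≠ 0) (m : Fin (k + 1))
    (hm : y m ≠ y 0) : Function.Surjective (lap' e y) := by
  intro c
  choose s hs using fun t : Fin k => mem_star e y he m hm t.succ (c t)
  refine ⟨∑ t, s t, ?_⟩
  funext t
  show lap e y (∑ t, s t) t.succ = c t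
  rw [map_sum, Finset.sum_apply, Finset.sum_eq_single t]
  · rw [hs]; simp
  · intro t' _ ht'
    rw [hs]
    have : t.succ ≠ t'.succ := fun h => ht' (Fin.succ_injective _ h).symm
    simp [this]
  · intro h; exact absurd (Finset.mem_univ _) h

open Classical in
lemma ker_card {k : ℕ} (e y : Fin (k + 1) → ZMod 3) (he : ∀ i, e i ≠ 0) (m : Fin (k + 1))
    (hm : y m ≠ y 0) :
    (Finset.univ.filter fun s : {x : Fin (k + 1) × Fin (k + 1) // x.1 < x.2} → ZMod 3 =>
      ∀ t, ∑ i, e i * e t * sym s i t * (y i - y t) = 0).card * 3 ^ k ≤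
    Fintype.card ({x : Fin (k + 1) × Fin (k + 1) // x.1 < x.2} → ZMod 3) := by
  have h1 := (lap' e y).ker.card_mul_index
  rw [AddSubgroup.index_ker, AddMonoidHom.range_eq_top.2 (lap'_surj e y he m hm)] at h1
  have h2 : Nat.card (⊤ : AddSubgroup (Fin k → ZMod 3)) = 3 ^ k := by
    rw [Nat.card_congr AddSubgroup.topEquiv.toEquiv, Nat.card_eq_fintype_card, Fintype.card_fun,
      ZMod.card, Fintype.card_fin]
  rw [h2, Nat.card_eq_fintype_card (α := {x : Fin (k + 1) × Fin (k + 1) // x.1 < x.2} → ZMod 3)] at h1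
  rw [← h1]
  refine Nat.mul_le_mul_right _ ?_
  rw [← Fintype.card_coe, ← Nat.card_eq_fintype_card]
  refine Nat.card_le_card_of_injective (fun s => (⟨s.1, ?_⟩ : (lap' e y).ker)) ?_
  · have hs := (Finset.mem_filter.1 s.2).2
    rw [AddMonoidHom.mem_ker]
    funext t
    exact hs t.succ
  · intro a b hab
    apply Subtype.ext
    exact congrArg (fun z : (lap' e y).ker => z.1) hab

/-- the tables of size `k + 1` -/
abbrev TT (k : ℕ) : Type := {x : Fin (k + 1) × Fin (k + 1) // x.1 < x.2} → ZMod 3

open Classical in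
theorem half (k : ℕ) (e : Fin (k + 1) → ZMod 3) (he : ∀ i, e i ≠ 0) :
    Fintype.card ({x : Fin (k + 1) × Fin (k + 1) // x.1 < x.2} → ZMod 3) <
      2 * ((Finset.univ : Finset ({x : Fin (k + 1) × Fin (k + 1) // x.1 < x.2} → ZMod 3)).filter
        fun s => NS e s).card := by
  set Y : Finset (Fin k → ZMod 3) := Finset.univ.erase 0 with hY
  let R : (Fin k → ZMod 3) → TT k → Prop := fun z s =>
    ∀ t, ∑ i, e i * e t * sym s i t *
      ((Fin.cons 0 z : Fin (k + 1) → ZMod 3) i - (Fin.cons 0 z : Fin (k + 1) → ZMod 3) t) = 0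
  have hcardY : Y.card = 3 ^ k - 1 := by
    rw [hY, Finset.card_erase_of_mem (Finset.mem_univ _), Finset.card_univ, Fintype.card_fun,
      ZMod.card, Fintype.card_fin]
  set bad : Finset (TT k) := Finset.univ.filter fun s => ¬ NS e s with hbad
  -- every bad table has two vectors
  have htwo : ∀ s ∈ bad, 2 ≤ (Y.filter fun z => R z s).card := by
    intro s hs
    have hs' : ¬ NS e s := (Finset.mem_filter.1 hs).2
    unfold NS at hs'
    push Not at hs'
    obtain ⟨y, hy, i, j, hij⟩ := hs'
    set z : Fin k → ZMod 3 := fun t => y t.succ - y 0 with hz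
    have hcons : ∀ i, (Fin.cons 0 z : Fin (k + 1) → ZMod 3) i = y i - y 0 := by
      intro i
      refine Fin.cases ?_ (fun t => ?_) i
      · simp
      · simp [hz]
    have hz0 : z ≠ 0 := by
      intro h
      apply hij
      have : ∀ i, y i - y 0 = 0 := by
        intro i
        rw [← hcons, h]
        refine Fin.cases ?_ (fun t => ?_) i <;> simp
      rw [sub_eq_zero.1 (this i), sub_eq_zero.1 (this j)]
    have hconsn : ∀ i, (Fin.cons 0 (-z) : Fin (k + 1) → ZMod 3) i = -(y i - y 0) := by
      intro i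
      refine Fin.cases ?_ (fun t => ?_) i
      · simp
      · simp [hz]
    have hR1 : R z s := by
      intro t
      simp only [hcons]
      rw [← hy t]
      refine Finset.sum_congr rfl fun i _ => ?_
      ring
    have hR2 : R (-z) s := by
      intro t
      simp only [hconsn]
      have : (0 : ZMod 3) = -∑ i, e i * e t * sym s i t * (y i - y t) := by rw [hy t]; simp
      rw [this, ← Finset.sum_neg_distrib]
      refine Finset.sum_congr rfl fun i _ => ?_
      ring
    have hne : z ≠ -z := by
      intro h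
      apply hz0
      funext t
      have h1 := congrFun h t
      have h3 : ∀ a : ZMod 3, a = -a → a = 0 := by decide
      exact h3 _ h1
    have hsub : ({z, -z} : Finset (Fin k → ZMod 3)) ⊆ Y.filter fun z => R z s := by
      intro w hw
      rw [Finset.mem_insert, Finset.mem_singleton] at hw
      rw [Finset.mem_filter, hY, Finset.mem_erase]
      rcases hw with rfl | rfl
      · exact ⟨⟨hz0, Finset.mem_univ _⟩, hR1⟩
      · exact ⟨⟨neg_ne_zero.2 hz0, Finset.mem_univ _⟩, hR2⟩
    calc 2 = ({z, -z} : Finset (Fin k → ZMod 3)).card := (Finset.card_pair hne).symm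
      _ ≤ _ := Finset.card_le_card hsub
  have hsum : 2 * bad.card ≤ ∑ z ∈ Y, (Finset.univ.filter fun s : TT k => R z s).card := by
    calc 2 * bad.card = ∑ s ∈ bad, 2 := by rw [Finset.sum_const, smul_eq_mul, mul_comm]
      _ ≤ ∑ s ∈ bad, (Y.filter fun z => R z s).card := Finset.sum_le_sum htwo
      _ ≤ ∑ s : TT k, (Y.filter fun z => R z s).card :=
          Finset.sum_le_sum_of_subset (Finset.subset_univ _)
      _ = ∑ z ∈ Y, (Finset.univ.filter fun s : TT k => R z s).card := by
          simp only [Finset.card_filter]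
          rw [Finset.sum_comm]
  have hker : ∀ z ∈ Y, (Finset.univ.filter fun s : TT k => R z s).card * 3 ^ k ≤ Fintype.card (TT k) := by
    intro z hz
    have hz0 : z ≠ 0 := (Finset.mem_erase.1 hz).1
    obtain ⟨m, hm⟩ : ∃ m, z m ≠ 0 := by
      by_contra h
      push Not at h
      exact hz0 (funext h)
    exact ker_card e (Fin.cons 0 z) he m.succ (by simpa using hm)
  have hmul : 2 * bad.card * 3 ^ k ≤ (3 ^ k - 1) * Fintype.card (TT k) := by
    calc 2 * bad.card * 3 ^ k ≤ (∑ z ∈ Y, (Finset.univ.filter fun s : TT k => R z s).card) * 3 ^ k :=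
          Nat.mul_le_mul_right _ hsum
      _ = ∑ z ∈ Y, (Finset.univ.filter fun s : TT k => R z s).card * 3 ^ k := Finset.sum_mul _ _ _
      _ ≤ ∑ z ∈ Y, Fintype.card (TT k) := Finset.sum_le_sum hker
      _ = (3 ^ k - 1) * Fintype.card (TT k) := by rw [Finset.sum_const, smul_eq_mul, hcardY]
  have hpos : 0 < Fintype.card (TT k) := Fintype.card_pos
  have h3 : 0 < 3 ^ k := by positivity
  have hlt : 2 * bad.card < Fintype.card (TT k) := by
    have : 2 * bad.card * 3 ^ k < Fintype.card (TT k) * 3 ^ k := by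
      refine lt_of_le_of_lt hmul ?_
      rw [mul_comm (Fintype.card (TT k))]
      exact Nat.mul_lt_mul_of_pos_right (Nat.sub_lt h3 one_pos) hpos
    exact lt_of_mul_lt_mul_right this (Nat.zero_le _)
  have hsplit : (Finset.univ.filter fun s : TT k => NS e s).card + bad.card = Fintype.card (TT k) := by
    rw [hbad, Finset.card_filter_add_card_filter_not, Finset.card_univ]
  show Fintype.card (TT k) < 2 * (Finset.univ.filter fun s : TT k => NS e s).card
  omega

end Pool.Agent.H47.SH
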