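import Pool.Agent.H47.SH.Core

/-! The good tables are more than a third of the admissible ones. -/

set_option autoImplicit false

namespace Pool.Agent.H47.SH

/-- the linear form -/
def lf {k : ℕ} (e : Fin (k + 1) → ZMod 3) : (Fin (k + 1) → ZMod 3) →+ ZMod 3 where
  toFun v := ∑ j, e j * v j
  map_zero' := by simp
  map_add' v w := by
    rw [← Finset.sum_add_distrib]
    refine Finset.sum_congr rfl fun i _ => ?_
    rw [Pi.add_apply, mul_add]

lemma lf_surj {k : ℕ} (e : Fin (k + 1) → ZMod 3) (he : ∀ i, e i ≠ 0) :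
    Function.Surjective (lf e) := by
  have : Fact (Nat.Prime 3) := ⟨Nat.prime_three⟩
  intro c
  refine ⟨Pi.single 0 ((e 0)⁻¹ * c), ?_⟩
  show ∑ j, e j * (Pi.single 0 ((e 0)⁻¹ * c) : Fin (k + 1) → ZMod 3) j = c
  rw [Finset.sum_eq_single 0]
  · rw [Pi.single_eq_same, ← mul_assoc, mul_inv_cancel₀ (he 0), one_mul]
  · intro j _ hj
    rw [Pi.single_eq_of_ne hj, mul_zero]
  · intro h; exact absurd (Finset.mem_univ _) h

open Classical in
lemma lf_card {k : ℕ} (e : Fin (k + 1) → ZMod 3) (he : ∀ i, e i ≠ 0) :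
    3 * (Finset.univ.filter fun v : Fin (k + 1) → ZMod 3 => ∑ j, e j * v j ≠ 0).card =
      2 * Fintype.card (Fin (k + 1) → ZMod 3) := by
  have h1 := (lf e).ker.card_mul_index
  rw [AddSubgroup.index_ker, AddMonoidHom.range_eq_top.2 (lf_surj e he)] at h1
  have h2 : Nat.card (⊤ : AddSubgroup (ZMod 3)) = 3 := by
    rw [Nat.card_congr AddSubgroup.topEquiv.toEquiv, Nat.card_eq_fintype_card, ZMod.card]
  rw [h2, Nat.card_eq_fintype_card (α := Fin (k + 1) → ZMod 3)] at h1
  have h3 : (Finset.univ.filter fun v : Fin (k + 1) → ZMod 3 => ∑ j, e j * v j = 0).card =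
      Nat.card (lf e).ker := by
    rw [← Fintype.card_coe, ← Nat.card_eq_fintype_card]
    refine Nat.card_congr (Equiv.subtypeEquivRight fun v => ?_)
    rw [Finset.mem_filter, AddMonoidHom.mem_ker]
    exact ⟨fun h => h.2, fun h => ⟨Finset.mem_univ _, h⟩⟩
  have h4 : (Finset.univ.filter fun v : Fin (k + 1) → ZMod 3 => ∑ j, e j * v j = 0).card +
      (Finset.univ.filter fun v : Fin (k + 1) → ZMod 3 => ¬ ∑ j, e j * v j = 0).card =
      Fintype.card (Fin (k + 1) → ZMod 3) := by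
    rw [Finset.card_filter_add_card_filter_not, Finset.card_univ]
  rw [h3] at h4
  have h5 : (Finset.univ.filter fun v : Fin (k + 1) → ZMod 3 => ∑ j, e j * v j ≠ 0).card =
    (Finset.univ.filter fun v : Fin (k + 1) → ZMod 3 => ¬ ∑ j, e j * v j = 0).card := rfl
  rw [h5]
  omega

/-- the matrices with first column zero -/
def mat {k : ℕ} (v : Fin (k + 1) → ZMod 3) : Fin (k + 1) → Fin 2 → ZMod 3 :=
  fun j l => if l = 0 then 0 else v j

lemma mat_inj {k : ℕ} : Function.Injective (mat (k := k)) := by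
  intro v w h
  funext j
  have := congrFun (congrFun h j) 1
  simpa [mat] using this

lemma eq_mat {k : ℕ} (m : Fin (k + 1) → Fin 2 → ZMod 3) (h : ∀ j, m j 0 = 0) :
    mat (fun j => m j 1) = m := by
  funext j l
  unfold mat
  fin_cases l
  · simp [h]
  · simp

open Classical in
lemma card_adm (k : ℕ) :
    (Finset.univ.filter fun τ : (Fin (k + 1) → Fin 2 → ZMod 3) × TT k => ∀ j, τ.1 j 0 = 0).card =
      Fintype.card (Fin (k + 1) → ZMod 3) * Fintype.card (TT k) := by
  have h : (Finset.univ.filter fun τ : (Fin (k + 1) → Fin 2 → ZMod 3) × TT k => ∀ j, τ.1 j 0 = 0) =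
      (Finset.univ.image (mat (k := k))) ×ˢ (Finset.univ : Finset (TT k)) := by
    ext ⟨m, s⟩
    rw [Finset.mem_filter, Finset.mem_product, Finset.mem_image]
    constructor
    · rintro ⟨-, h⟩
      exact ⟨⟨_, Finset.mem_univ _, eq_mat m h⟩, Finset.mem_univ _⟩
    · rintro ⟨⟨v, -, hv⟩, -⟩
      refine ⟨Finset.mem_univ _, fun j => ?_⟩
      show m j 0 = 0
      have hv' : mat v = m := hv
      rw [← hv']
      simp [mat]
  rw [h, Finset.card_product, Finset.card_image_of_injective _ mat_inj, Finset.card_univ,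
    Finset.card_univ]

open Classical in
lemma card_good (k : ℕ) (e : Fin (k + 1) → ZMod 3) :
    (Finset.univ.filter fun τ : (Fin (k + 1) → Fin 2 → ZMod 3) × TT k =>
      (∀ j, τ.1 j 0 = 0) ∧ ∑ j, e j * τ.1 j 1 ≠ 0 ∧ NS e τ.2).card =
      (Finset.univ.filter fun v : Fin (k + 1) → ZMod 3 => ∑ j, e j * v j ≠ 0).card *
        (Finset.univ.filter fun s : TT k => NS e s).card := by
  have h : (Finset.univ.filter fun τ : (Fin (k + 1) → Fin 2 → ZMod 3) × TT k =>
      (∀ j, τ.1 j 0 = 0) ∧ ∑ j, e j * τ.1 j 1 ≠ 0 ∧ NS e τ.2) =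
      ((Finset.univ.filter fun v : Fin (k + 1) → ZMod 3 => ∑ j, e j * v j ≠ 0).image (mat (k := k))) ×ˢ
        (Finset.univ.filter fun s : TT k => NS e s) := by
    ext ⟨m, s⟩
    rw [Finset.mem_filter, Finset.mem_product, Finset.mem_image, Finset.mem_filter]
    constructor
    · rintro ⟨-, h, h1, h2⟩
      exact ⟨⟨_, Finset.mem_filter.2 ⟨Finset.mem_univ _, h1⟩, eq_mat m h⟩, Finset.mem_univ _, h2⟩
    · rintro ⟨⟨v, hv1, hv⟩, -, h2⟩
      have hv' : mat v = m := hv
      refine ⟨Finset.mem_univ _, fun j => ?_, ?_, h2⟩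
      · show m j 0 = 0
        rw [← hv']
        simp [mat]
      · have h3 := (Finset.mem_filter.1 hv1).2
        show ∑ j, e j * m j 1 ≠ 0
        rw [← hv']
        simpa [mat] using h3
  rw [h, Finset.card_product, Finset.card_image_of_injective _ mat_inj]

open Classical in
theorem third (k : ℕ) (e : Fin (k + 1) → ZMod 3) (he : ∀ i, e i ≠ 0) :
    0 < ((Finset.univ : Finset ((Fin (k + 1) → Fin 2 → ZMod 3) × TT k)).filter
      fun τ => ∀ j, τ.1 j 0 = 0).card ∧
    (1 / 3 : ℝ) * (((Finset.univ : Finset ((Fin (k + 1) → Fin 2 → ZMod 3) × TT k)).filter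
      fun τ => ∀ j, τ.1 j 0 = 0).card : ℝ) <
      (((Finset.univ : Finset ((Fin (k + 1) → Fin 2 → ZMod 3) × TT k)).filter fun τ =>
        (∀ j, τ.1 j 0 = 0) ∧ ∑ j, e j * τ.1 j 1 ≠ 0 ∧ NS e τ.2).card : ℝ) := by
  have hV : 0 < Fintype.card (Fin (k + 1) → ZMod 3) := Fintype.card_pos
  have hT : 0 < Fintype.card (TT k) := Fintype.card_pos
  have h1 := lf_card e he
  have h2 : Fintype.card (TT k) < 2 * (Finset.univ.filter fun s : TT k => NS e s).card := half k e he
  rw [card_adm, card_good]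
  refine ⟨Nat.mul_pos hV hT, ?_⟩
  generalize (Finset.univ.filter fun v : Fin (k + 1) → ZMod 3 => ∑ j, e j * v j ≠ 0).card = a at h1 ⊢
  generalize (Finset.univ.filter fun s : TT k => NS e s).card = n at h2 ⊢
  generalize Fintype.card (Fin (k + 1) → ZMod 3) = V at hV h1 ⊢
  generalize Fintype.card (TT k) = T at hT h2 ⊢
  have h1' : (3 : ℝ) * a = 2 * V := by exact_mod_cast h1
  have h2' : (T : ℝ) < 2 * n := by exact_mod_cast h2
  have hV' : (0 : ℝ) < V := by exact_mod_cast hV
  push_cast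
  have h3 : (a : ℝ) = 2 / 3 * V := by linarith
  rw [h3]
  nlinarith [mul_lt_mul_of_pos_left h2' hV']

end Pool.Agent.H47.SH
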