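import Pool.Agent.H62.SH.Stm3
import Pool.Agent.H62.SH.Sym
import Pool.Agent.H40.SH.P1a
import Pool.Graph.R_pool_sql_team_seeded_3997aac3.Q277.LK.Bas

/-!
# Job N2: equidistribution of the tables of cubic symbols for the primes with norm one modulo `3 ^ (n + 1)`
-/

set_option autoImplicit false

namespace Pool.Agent.H47.SH

open NumberField IsDedekindDomain Filter Topology
open Pool.Agent.Q7.LK
open Pool.Agent.Q283.LQ (Sm Box Nest nS)
open Pool.Agent.Q53.LQ2.NEST (Cs W fin_sm fin_Cs ncard_le inf_primes box_sum nest_mono)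
open Pool.Agent.Q153.LK (res tb_snoc alg)
open Pool.Agent.H62.SH (S_CHN S_P1N BoxN)

section
variable {F : Type} [Field F] [NumberField F]

/-- the norm is one modulo `3 ^ (n + 1)` -/
abbrev Rn (n : ℕ) (v : HeightOneSpectrum (𝓞 F)) : Prop := 3 ^ (n + 1) ∣ Ideal.absNorm v.asIdeal - 1

/-- the number of these primes of norm `≤ x` -/
noncomputable abbrev Dn (F : Type) [Field F] [NumberField F] (n x : ℕ) : ℝ :=
  ((Cs (fun v : HeightOneSpectrum (𝓞 F) => Rn n v) x).ncard : ℝ)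

theorem ratio_congr {D : ℕ → ℝ} (hD : Tendsto D atTop atTop) (hD0 : ∀ x, 0 ≤ D x)
    {P Q : HeightOneSpectrum (𝓞 F) → Prop} {T : Set (HeightOneSpectrum (𝓞 F))}
    (hT : T.Finite) (h : ∀ v, v ∉ T → (P v ↔ Q v)) {L : ℝ}
    (hP : Tendsto (fun x : ℕ => ((Cs P x).ncard : ℝ) / D x) atTop (𝓝 L)) :
    Tendsto (fun x : ℕ => ((Cs Q x).ncard : ℝ) / D x) atTop (𝓝 L) := by
  refine tendsto_of_tendsto_of_dist hP ?_
  refine squeeze_zero (g := fun x => (T.ncard : ℝ) / D x) (fun x => dist_nonneg) ?_ ?_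
  · intro x
    have h1 := ncard_le hT (fun v hv => (h v hv).1) x
    have h2 := ncard_le hT (fun v hv => (h v hv).2) x
    have h0 : (0 : ℝ) ≤ D x := hD0 x
    rw [Real.dist_eq, ← sub_div, abs_div, abs_of_nonneg h0]
    refine div_le_div_of_nonneg_right ?_ h0
    rw [abs_le]
    constructor <;> linarith
  · exact hD.const_div_atTop _

/-- the independent system, with `ζ` first -/
theorem indN {ζ θ : F} {π : HeightOneSpectrum (𝓞 F) → F}
    (hb : Pool.Agent.H40.SH.Gd 3 3 2 ![ζ, θ] π) {k : ℕ}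
    {q : Fin k → HeightOneSpectrum (𝓞 F)} (hq : Function.Injective q) (hS : ∀ i, ¬ Sm 3 (q i)) :
    (∀ i, (Fin.cons θ (fun i => π (q i)) : Fin (k + 1) → F) i ≠ 0) ∧
    ∀ c : Fin (k + 1 + 1) → ZMod 3,
      IsPow 3 (mon (Fin.cons ζ (Fin.cons θ (fun i => π (q i)) : Fin (k + 1) → F) : Fin (k + 1 + 1) → F) c) →
      c = 0 := by
  have : Fact (Nat.Prime 3) := ⟨Nat.prime_three⟩
  obtain ⟨h1, h2⟩ := Pool.Agent.H40.SH.indep Pool.Agent.Q277.LK.bas hb hq hS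
  constructor
  · intro i
    refine Fin.cases ?_ ?_ i
    · rw [Fin.cons_zero]
      exact hb.ue 1
    · intro j
      rw [Fin.cons_succ]
      exact (hb.po _ (hS j)).1
  · intro c hc
    have h3 : mon (Fin.append ![ζ, θ] fun i => π (q i))
        (Fin.append ![c 0, c (Fin.succ 0)] fun i : Fin k => c i.succ.succ) =
        mon (Fin.cons ζ (Fin.cons θ (fun i => π (q i)) : Fin (k + 1) → F) : Fin (k + 1 + 1) → F) c := by
      unfold mon
      rw [Fin.prod_univ_add, Fin.prod_univ_two, Fin.prod_univ_succ, Fin.prod_univ_succ, ← mul_assoc]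
      simp only [Fin.append_left, Fin.append_right, Fin.cons_zero, Fin.cons_succ,
        Matrix.cons_val_zero, Matrix.cons_val_one]
    have h4 := h2 _ (h3 ▸ hc)
    funext i
    refine Fin.cases ?_ ?_ i
    · have h5 := congrFun h4 (Fin.castAdd k 0)
      rw [Fin.append_left] at h5
      simpa using h5
    · intro j
      refine Fin.cases ?_ ?_ j
      · have h5 := congrFun h4 (Fin.castAdd k 1)
        rw [Fin.append_left] at h5
        simpa using h5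
      · intro l
        have h5 := congrFun h4 (Fin.natAdd 2 l)
        rw [Fin.append_right] at h5
        simpa using h5

theorem exists_q (F : Type) [Field F] [NumberField F] (m : ℕ) :
    ∃ q : Fin m → HeightOneSpectrum (𝓞 F), Function.Injective q ∧ ∀ i, ¬ Sm 3 (q i) := by
  have := inf_primes F
  have h1 : {v : HeightOneSpectrum (𝓞 F) | ¬ Sm 3 v}.Infinite := (fin_sm 3).infinite_compl
  obtain ⟨s, hs, hc⟩ := h1.exists_subset_card_eq m
  refine ⟨fun i => (s.equivFinOfCardEq hc).symm i, ?_, ?_⟩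
  · intro i j hij
    exact (s.equivFinOfCardEq hc).symm.injective (Subtype.ext hij)
  · intro i
    exact hs ((s.equivFinOfCardEq hc).symm i).2

end

section
variable {F : Type} [Field F] [NumberField F] [IsCyclotomicExtension {3} ℚ F]

theorem tend_Dn (hCH : S_CHN) {ζ θ : F} (hζ : IsPrimitiveRoot ζ 3) {n : ℕ} (hn : n ≠ 0)
    {π : HeightOneSpectrum (𝓞 F) → F} (hb : Pool.Agent.H40.SH.Gd 3 3 2 ![ζ, θ] π) :
    Tendsto (Dn F n) atTop atTop := by
  rw [tendsto_atTop]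
  intro b
  obtain ⟨m, hm⟩ := exists_nat_ge b
  obtain ⟨q, hq, hS⟩ := exists_q F m
  obtain ⟨h1, h2⟩ := indN hb hq hS
  have h3 : ∀ e : Fin (m + 1) → ZMod 3, ∀ᶠ x : ℕ in atTop, ∃ v : HeightOneSpectrum (𝓞 F),
      Ideal.absNorm v.asIdeal ≤ x ∧ Rn n v ∧
        ∀ i, sy 3 ζ v ((Fin.cons θ (fun i => π (q i)) : Fin (m + 1) → F) i) = e i := by
    intro e
    have h4 := hCH F ζ hζ n (m + 1) hn _ h1 h2 e
    have h5 : (0 : ℝ) < 1 / (3 : ℝ) ^ (m + 1) := by positivity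
    filter_upwards [h4.eventually_const_lt h5] with x hx
    by_contra hcon
    push Not at hcon
    have h6 : {v : HeightOneSpectrum (𝓞 F) | Ideal.absNorm v.asIdeal ≤ x ∧
        3 ^ (n + 1) ∣ Ideal.absNorm v.asIdeal - 1 ∧
        ∀ i, sy 3 ζ v ((Fin.cons θ (fun i => π (q i)) : Fin (m + 1) → F) i) = e i} = ∅ := by
      refine Set.eq_empty_of_forall_notMem fun v hv => ?_
      obtain ⟨i, hi⟩ := hcon v hv.1 hv.2.1
      exact hi (hv.2.2 i)
    rw [h6, Set.ncard_empty, Nat.cast_zero, zero_div] at hx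
    exact lt_irrefl _ hx
  filter_upwards [eventually_all.2 h3] with x hx
  choose f hf1 hf2 hf3 using hx
  have hinj : Function.Injective f := by
    intro e e' h
    funext i
    rw [← hf3 e i, ← hf3 e' i, h]
  have h4 : Nat.card (Fin (m + 1) → ZMod 3) ≤ (Cs (fun v : HeightOneSpectrum (𝓞 F) => Rn n v) x).ncard := by
    have h5 : (Set.range f) ⊆ Cs (fun v : HeightOneSpectrum (𝓞 F) => Rn n v) x := by
      rintro _ ⟨e, rfl⟩
      exact ⟨hf1 e, hf2 e⟩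
    have h6 := Set.ncard_le_ncard h5 (fin_Cs _ x)
    rwa [← Set.image_univ, Set.ncard_image_of_injective _ hinj, Set.ncard_univ] at h6
  have h5 : Nat.card (Fin (m + 1) → ZMod 3) = 3 ^ (m + 1) := by
    rw [Nat.card_eq_fintype_card, Fintype.card_fun, ZMod.card, Fintype.card_fin]
  rw [h5] at h4
  have h6 : m ≤ 3 ^ (m + 1) := (Nat.lt_pow_self (by norm_num)).le.trans
    (Nat.pow_le_pow_right (by norm_num) (Nat.le_succ m))
  calc b ≤ m := hm
    _ ≤ ((3 ^ (m + 1) : ℕ) : ℝ) := by exact_mod_cast h6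
    _ ≤ _ := by exact_mod_cast h4

theorem sy_z {ζ : F} (hζ : IsPrimitiveRoot ζ 3) {n : ℕ} (hn : n ≠ 0) {v : HeightOneSpectrum (𝓞 F)}
    (hv : ¬ Sm 3 v) (hR : Rn n v) : sy 3 ζ v ζ = 0 := by
  have h3 : (3 : 𝓞 F) ∉ v.asIdeal := fun h => hv ((Pool.Agent.H62.SH.sym3 v).2 (Or.inr h))
  refine (Pool.Agent.H62.SH.sy_zeta_iff hζ h3).2 (Dvd.dvd.trans ?_ hR)
  obtain ⟨m, rfl⟩ := Nat.exists_eq_succ_of_ne_zero hn
  exact ⟨3 ^ m, by rw [Nat.succ_eq_add_one]; ring⟩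

/-- the limit for the primes which can be added to the tuple -/
theorem lim_W (hCH : S_CHN) {ζ θ : F} (hζ : IsPrimitiveRoot ζ 3) {n : ℕ} (hn : n ≠ 0)
    {π : HeightOneSpectrum (𝓞 F) → F} (hb : Pool.Agent.H40.SH.Gd 3 3 2 ![ζ, θ] π) {k : ℕ}
    (q : Fin k → HeightOneSpectrum (𝓞 F)) :
    Tendsto (fun x : ℕ => ((Cs (fun v => W 3 q v ∧ Rn n v) x).ncard : ℝ) / Dn F n x) atTop (𝓝 1) := by
  refine ratio_congr (tend_Dn hCH hζ hn hb) (fun x => Nat.cast_nonneg _)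
    (P := fun v => Rn n v) (T := {v | Sm 3 v} ∪ Set.range q)
    ((fin_sm 3).union (Set.finite_range q)) ?_ ?_
  · intro v hv
    refine ⟨fun h => ⟨⟨fun h => hv (Or.inl h), fun i h => hv (Or.inr ⟨i, h⟩)⟩, h⟩, fun h => h.2⟩
  · refine tendsto_const_nhds.congr' ?_
    filter_upwards [(tend_Dn hCH hζ hn hb).eventually_gt_atTop 0] with x hx
    exact (div_self hx.ne').symm

theorem lim_Tb (hCH : S_CHN) {ζ θ : F} (hζ : IsPrimitiveRoot ζ 3) {n : ℕ} (hn : n ≠ 0)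
    {π : HeightOneSpectrum (𝓞 F) → F} (hb : Pool.Agent.H40.SH.Gd 3 3 2 ![ζ, θ] π) {k : ℕ}
    {q : Fin k → HeightOneSpectrum (𝓞 F)}
    (hq : Function.Injective q) (hS : ∀ i, ¬ Sm 3 (q i)) {τ : Tab 3 2 (k + 1)}
    (h0 : τ.1 (Fin.last k) 0 = 0) (hτ : Tb ζ ![ζ, θ] π (res τ) q) :
    Tendsto (fun x : ℕ => ((Cs (fun v => W 3 q v ∧ (Rn n v ∧
      Tb ζ ![ζ, θ] π τ (Fin.snoc (α := fun _ => HeightOneSpectrum (𝓞 F)) q v))) x).ncard : ℝ) / Dn F n x)
      atTop (𝓝 (1 / (3 : ℝ) ^ (1 + k))) := by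
  obtain ⟨h1, h2⟩ := indN hb hq hS
  have h3 := hCH F ζ hζ n (k + 1) hn _ h1 h2 (Fin.cons (τ.1 (Fin.last k) 1) fun i : Fin k =>
    τ.2 ⟨(i.castSucc, Fin.last k), Fin.castSucc_lt_last i⟩)
  rw [add_comm 1 k]
  refine ratio_congr (tend_Dn hCH hζ hn hb) (fun x => Nat.cast_nonneg _)
    (P := fun v => Rn n v ∧ ∀ i, sy 3 ζ v ((Fin.cons θ (fun i => π (q i)) : Fin (k + 1) → F) i) =
      (Fin.cons (τ.1 (Fin.last k) 1) (fun i : Fin k =>
        τ.2 ⟨(i.castSucc, Fin.last k), Fin.castSucc_lt_last i⟩) : Fin (k + 1) → ZMod 3) i)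
    (T := {v | Sm 3 v} ∪ Set.range q)
    ((fin_sm 3).union (Set.finite_range q))
    ?_ h3
  intro v hv
  have h6 : W 3 q v := ⟨fun h => hv (Or.inl h), fun i h => hv (Or.inr ⟨i, h⟩)⟩
  rw [tb_snoc]
  constructor
  · rintro ⟨hR, h⟩
    refine ⟨h6, hR, hτ, ?_, ?_⟩
    · intro l
      refine Fin.cases ?_ ?_ l
      · rw [h0]
        exact sy_z hζ hn h6.1 hR
      · intro l'
        have hl : l' = 0 := Subsingleton.elim _ _
        subst hl
        have := h 0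
        rw [Fin.cons_zero, Fin.cons_zero] at this
        exact this
    · intro i
      have := h i.succ
      rwa [Fin.cons_succ, Fin.cons_succ] at this
  · rintro ⟨-, hR, -, h, h'⟩
    refine ⟨hR, fun i => ?_⟩
    refine Fin.cases ?_ ?_ i
    · rw [Fin.cons_zero, Fin.cons_zero]
      exact h 1
    · intro j
      rw [Fin.cons_succ, Fin.cons_succ]
      exact h' j

theorem lim_empty {n : ℕ} {P : HeightOneSpectrum (𝓞 F) → Prop} (h : ∀ v, ¬ P v) :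
    Tendsto (fun x : ℕ => ((Cs P x).ncard : ℝ) / Dn F n x) atTop (𝓝 0) := by
  have h1 : ∀ x, (Cs P x) = ∅ := by
    intro x
    refine Set.eq_empty_of_forall_notMem fun v hv => h v hv.2
  simp only [h1, Set.ncard_empty, Nat.cast_zero, zero_div]
  exact tendsto_const_nhds

theorem forall_snoc {n k : ℕ} {q : Fin k → HeightOneSpectrum (𝓞 F)} {v : HeightOneSpectrum (𝓞 F)} :
    (∀ i, Rn n ((Fin.snoc (α := fun _ => HeightOneSpectrum (𝓞 F)) q v : Fin (k + 1) → _) i)) ↔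
      (∀ i, Rn n (q i)) ∧ Rn n v := by
  constructor
  · intro h
    refine ⟨fun i => ?_, ?_⟩
    · have := h i.castSucc
      rwa [Fin.snoc_castSucc] at this
    · have := h (Fin.last k)
      rwa [Fin.snoc_last] at this
  · rintro ⟨h, h'⟩ i
    refine Fin.lastCases ?_ ?_ i
    · rw [Fin.snoc_last]
      exact h'
    · intro j
      rw [Fin.snoc_castSucc]
      exact h j

open Classical in
theorem step (hCH : S_CHN) {ζ θ : F} (hζ : IsPrimitiveRoot ζ 3) {n : ℕ} (hn : n ≠ 0)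
    {π : HeightOneSpectrum (𝓞 F) → F} (hb : Pool.Agent.H40.SH.Gd 3 3 2 ![ζ, θ] π) {k : ℕ}
    (τ : Tab 3 2 (k + 1)) (h0 : ∀ j, τ.1 j 0 = 0) {ε : ℝ} (hε : 0 < ε) {X : Fin k → ℕ}
    (h1 : (Box 3 X : Set (Fin k → HeightOneSpectrum (𝓞 F))).Finite)
    (h2 : 0 < ((BoxN n X : Set (Fin k → HeightOneSpectrum (𝓞 F))).ncard : ℝ))
    (h3 : |({q ∈ (BoxN n X : Set (Fin k → HeightOneSpectrum (𝓞 F))) | Tb ζ ![ζ, θ] π (res τ) q}.ncard : ℝ) /
      ((BoxN n X : Set (Fin k → HeightOneSpectrum (𝓞 F))).ncard : ℝ) -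
        1 / (3 : ℝ) ^ (k * 1 + k * (k - 1) / 2)| ≤ ε / 2) :
    ∀ᶠ x : ℕ in atTop,
    (Box 3 (Fin.snoc (α := fun _ => ℕ) X x) :
      Set (Fin (k + 1) → HeightOneSpectrum (𝓞 F))).Finite ∧
    0 < ((BoxN n (Fin.snoc (α := fun _ => ℕ) X x) :
      Set (Fin (k + 1) → HeightOneSpectrum (𝓞 F))).ncard : ℝ) ∧
    |({q ∈ (BoxN n (Fin.snoc (α := fun _ => ℕ) X x) :
      Set (Fin (k + 1) → HeightOneSpectrum (𝓞 F))) | Tb ζ ![ζ, θ] π τ q}.ncard : ℝ) /
      ((BoxN n (Fin.snoc (α := fun _ => ℕ) X x) :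
      Set (Fin (k + 1) → HeightOneSpectrum (𝓞 F))).ncard : ℝ) -
        1 / (3 : ℝ) ^ ((k + 1) * 1 + (k + 1) * (k + 1 - 1) / 2)| ≤ ε := by
  set B := h1.toFinset.filter fun q => ∀ i, Rn n (q i) with hBdef
  have hmB : ∀ q, q ∈ B ↔ q ∈ (BoxN n X : Set (Fin k → HeightOneSpectrum (𝓞 F))) := by
    intro q
    rw [hBdef, Finset.mem_filter, Set.Finite.mem_toFinset]
    exact Iff.rfl
  have hBc : ((BoxN n X : Set (Fin k → HeightOneSpectrum (𝓞 F))).ncard : ℝ) = (B.card : ℝ) := by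
    rw [← Set.ncard_coe_finset]
    congr 2
    ext q
    rw [Finset.mem_coe, hmB]
  have hBt : ({q ∈ (BoxN n X : Set (Fin k → HeightOneSpectrum (𝓞 F))) |
      Tb ζ ![ζ, θ] π (res τ) q}.ncard : ℝ) =
        ((B.filter fun q => Tb ζ ![ζ, θ] π (res τ) q).card : ℝ) := by
    rw [← Set.ncard_coe_finset]
    congr 2
    ext q
    rw [Finset.mem_coe, Finset.mem_filter, hmB]
    exact Iff.rfl
  have hall : ∀ x, (BoxN n (Fin.snoc (α := fun _ => ℕ) X x) :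
      Set (Fin (k + 1) → HeightOneSpectrum (𝓞 F))) =
      {q' ∈ (Box 3 (Fin.snoc (α := fun _ => ℕ) X x) :
        Set (Fin (k + 1) → HeightOneSpectrum (𝓞 F))) | ∀ i, Rn n (q' i)} := fun x => rfl
  have hall2 : ∀ x, {q ∈ (BoxN n (Fin.snoc (α := fun _ => ℕ) X x) :
      Set (Fin (k + 1) → HeightOneSpectrum (𝓞 F))) | Tb ζ ![ζ, θ] π τ q} =
      {q' ∈ (Box 3 (Fin.snoc (α := fun _ => ℕ) X x) :
        Set (Fin (k + 1) → HeightOneSpectrum (𝓞 F))) | (∀ i, Rn n (q' i)) ∧ Tb ζ ![ζ, θ] π τ q'} := by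
    intro x
    ext q
    exact ⟨fun h => ⟨h.1.1, h.1.2, h.2⟩, fun h => ⟨⟨h.1, h.2.1⟩, h.2.2⟩⟩
  have l1 : Tendsto (fun x : ℕ => ((BoxN n (Fin.snoc (α := fun _ => ℕ) X x) :
      Set (Fin (k + 1) → HeightOneSpectrum (𝓞 F))).ncard : ℝ) / Dn F n x) atTop
      (𝓝 (B.card : ℝ)) := by
    have h4 : ∀ x : ℕ, ((BoxN n (Fin.snoc (α := fun _ => ℕ) X x) :
        Set (Fin (k + 1) → HeightOneSpectrum (𝓞 F))).ncard : ℝ) / Dn F n x =
        ∑ q ∈ h1.toFinset, ((Cs (fun v => W 3 q v ∧ ∀ i, Rn n ((Fin.snoc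
          (α := fun _ => HeightOneSpectrum (𝓞 F)) q v : Fin (k + 1) → _) i)) x).ncard : ℝ) / Dn F n x := by
      intro x
      rw [hall x, (box_sum h1 x fun q' => ∀ i, Rn n (q' i)).2, Nat.cast_sum, Finset.sum_div]
    simp only [h4]
    have h6 : (B.card : ℝ) = ∑ q ∈ h1.toFinset, if ∀ i, Rn n (q i) then (1 : ℝ) else 0 := by
      rw [← Finset.sum_filter, Finset.sum_const, nsmul_eq_mul, mul_one]
    rw [h6]
    refine tendsto_finsetSum _ fun q hq => ?_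
    by_cases hR : ∀ i, Rn n (q i)
    · rw [if_pos hR]
      refine ratio_congr (tend_Dn hCH hζ hn hb) (fun x => Nat.cast_nonneg _) Set.finite_empty ?_
        (lim_W hCH hζ hn hb q)
      intro v _
      rw [forall_snoc]
      exact ⟨fun h => ⟨h.1, hR, h.2⟩, fun h => ⟨h.1, h.2.2⟩⟩
    · rw [if_neg hR]
      refine lim_empty fun v hv => hR ?_
      exact (forall_snoc.1 hv.2).1
  have l2 : Tendsto (fun x : ℕ => ({q ∈ (BoxN n (Fin.snoc (α := fun _ => ℕ) X x) :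
      Set (Fin (k + 1) → HeightOneSpectrum (𝓞 F))) | Tb ζ ![ζ, θ] π τ q}.ncard : ℝ) / Dn F n x) atTop
      (𝓝 (((B.filter fun q => Tb ζ ![ζ, θ] π (res τ) q).card : ℝ) * (1 / (3 : ℝ) ^ (1 + k)))) := by
    have h4 : ∀ x : ℕ, ({q ∈ (BoxN n (Fin.snoc (α := fun _ => ℕ) X x) :
        Set (Fin (k + 1) → HeightOneSpectrum (𝓞 F))) | Tb ζ ![ζ, θ] π τ q}.ncard : ℝ) / Dn F n x =
        ∑ q ∈ h1.toFinset, ((Cs (fun v => W 3 q v ∧ ((∀ i, Rn n ((Fin.snoc
          (α := fun _ => HeightOneSpectrum (𝓞 F)) q v : Fin (k + 1) → _) i)) ∧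
          Tb ζ ![ζ, θ] π τ (Fin.snoc (α := fun _ => HeightOneSpectrum (𝓞 F)) q v))) x).ncard : ℝ) /
            Dn F n x := by
      intro x
      rw [hall2 x, (box_sum h1 x fun q' => (∀ i, Rn n (q' i)) ∧ Tb ζ ![ζ, θ] π τ q').2, Nat.cast_sum,
        Finset.sum_div]
    simp only [h4]
    have h6 : ((B.filter fun q => Tb ζ ![ζ, θ] π (res τ) q).card : ℝ) * (1 / (3 : ℝ) ^ (1 + k)) =
        ∑ q ∈ h1.toFinset, if (∀ i, Rn n (q i)) ∧ Tb ζ ![ζ, θ] π (res τ) q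
          then (1 / (3 : ℝ) ^ (1 + k) : ℝ) else 0 := by
      rw [← Finset.sum_filter, Finset.sum_const, nsmul_eq_mul, hBdef, Finset.filter_filter]
    rw [h6]
    refine tendsto_finsetSum _ fun q hq => ?_
    rw [Set.Finite.mem_toFinset] at hq
    by_cases hT : (∀ i, Rn n (q i)) ∧ Tb ζ ![ζ, θ] π (res τ) q
    · rw [if_pos hT]
      refine ratio_congr (tend_Dn hCH hζ hn hb) (fun x => Nat.cast_nonneg _) Set.finite_empty ?_
        (lim_Tb hCH hζ hn hb hq.1 (fun i => (hq.2 i).1) (h0 _) hT.2)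
      intro v _
      rw [forall_snoc]
      exact ⟨fun h => ⟨h.1, ⟨hT.1, h.2.1⟩, h.2.2⟩, fun h => ⟨h.1, h.2.1.2, h.2.2⟩⟩
    · rw [if_neg hT]
      refine lim_empty fun v hv => hT ?_
      rw [tb_snoc, forall_snoc] at hv
      exact ⟨hv.2.1.1, hv.2.2.1⟩
  rw [hBc] at h2 h3
  rw [hBt] at h3
  have l3 := l2.div l1 h2.ne'
  set L : ℝ := ((B.filter fun q => Tb ζ ![ζ, θ] π (res τ) q).card : ℝ) * (1 / (3 : ℝ) ^ (1 + k)) /
    (B.card : ℝ) with hL
  have hL2 : |L - 1 / (3 : ℝ) ^ ((k + 1) * 1 + (k + 1) * (k + 1 - 1) / 2)| ≤ ε / 2 := by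
    have e1 : (k + 1) * 1 + (k + 1) * (k + 1 - 1) / 2 = (k * 1 + k * (k - 1) / 2) + (1 + k) := by
      rw [Nat.triangle_succ]
      ring
    have e2 : L - 1 / (3 : ℝ) ^ ((k + 1) * 1 + (k + 1) * (k + 1 - 1) / 2) =
        (((B.filter fun q => Tb ζ ![ζ, θ] π (res τ) q).card : ℝ) / (B.card : ℝ) -
          1 / (3 : ℝ) ^ (k * 1 + k * (k - 1) / 2)) * (1 / (3 : ℝ) ^ (1 + k)) := by
      rw [hL, e1]
      exact alg _ _ _ _ _
    rw [e2, abs_mul]
    have h7 : |(1 / (3 : ℝ) ^ (1 + k) : ℝ)| ≤ 1 := by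
      rw [abs_of_nonneg (by positivity), div_le_one (by positivity)]
      exact one_le_pow₀ (by norm_num)
    calc _ ≤ (ε / 2) * 1 := mul_le_mul h3 h7 (abs_nonneg _) (by positivity)
      _ = ε / 2 := mul_one _
  have h8 := (Metric.tendsto_nhds.1 l3) (ε / 2) (by positivity)
  filter_upwards [h8, l1.eventually_const_lt h2, (tend_Dn hCH hζ hn hb).eventually_gt_atTop 0]
    with x h9 h10 h11
  refine ⟨?_, ?_, ?_⟩
  · have h12 : (Box 3 (Fin.snoc (α := fun _ => ℕ) X x) :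
      Set (Fin (k + 1) → HeightOneSpectrum (𝓞 F))) =
      {q' ∈ (Box 3 (Fin.snoc (α := fun _ => ℕ) X x) :
        Set (Fin (k + 1) → HeightOneSpectrum (𝓞 F))) | True} := by
      ext q
      exact ⟨fun h => ⟨h, trivial⟩, fun h => h.1⟩
    rw [h12]
    exact (box_sum h1 x fun _ => True).1
  · by_contra hcon
    have h12 : ((BoxN n (Fin.snoc (α := fun _ => ℕ) X x) :
      Set (Fin (k + 1) → HeightOneSpectrum (𝓞 F))).ncard : ℝ) = 0 :=
      le_antisymm (not_lt.1 hcon) (Nat.cast_nonneg _)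
    rw [h12, zero_div] at h10
    exact lt_irrefl _ h10
  · have h12 : ∀ a b : ℝ, a / Dn F n x / (b / Dn F n x) = a / b := fun a b =>
      div_div_div_cancel_right₀ h11.ne' a b
    rw [Pi.div_apply, h12, Real.dist_eq] at h9
    rw [abs_le] at hL2 ⊢
    rw [abs_lt] at h9
    constructor <;> linarith

theorem nest (hCH : S_CHN) {ζ θ : F} (hζ : IsPrimitiveRoot ζ 3) {n : ℕ} (hn : n ≠ 0)
    {π : HeightOneSpectrum (𝓞 F) → F} (hb : Pool.Agent.H40.SH.Gd 3 3 2 ![ζ, θ] π) (k : ℕ) :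
    ∀ (τ : Tab 3 2 k), (∀ j, τ.1 j 0 = 0) → ∀ (ε : ℝ), 0 < ε → Nest k fun X =>
    (Box 3 X : Set (Fin k → HeightOneSpectrum (𝓞 F))).Finite ∧
    0 < ((BoxN n X : Set (Fin k → HeightOneSpectrum (𝓞 F))).ncard : ℝ) ∧
    |({q ∈ (BoxN n X : Set (Fin k → HeightOneSpectrum (𝓞 F))) | Tb ζ ![ζ, θ] π τ q}.ncard : ℝ) /
      ((BoxN n X : Set (Fin k → HeightOneSpectrum (𝓞 F))).ncard : ℝ) -
        1 / (3 : ℝ) ^ (k * 1 + k * (k - 1) / 2)| ≤ ε := by
  induction k with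
  | zero =>
    intro τ _ ε hε
    have h0 : (Box 3 (Fin.elim0 : Fin 0 → ℕ) : Set (Fin 0 → HeightOneSpectrum (𝓞 F))) =
        Set.univ := by
      refine Set.eq_univ_of_forall fun q => ⟨fun i => i.elim0, fun i => i.elim0⟩
    have h1 : (BoxN n (Fin.elim0 : Fin 0 → ℕ) : Set (Fin 0 → HeightOneSpectrum (𝓞 F))) =
        Set.univ := by
      refine Set.eq_univ_of_forall fun q => ⟨⟨fun i => i.elim0, fun i => i.elim0⟩, fun i => i.elim0⟩
    have h2 : {q ∈ (Set.univ : Set (Fin 0 → HeightOneSpectrum (𝓞 F))) | Tb ζ ![ζ, θ] π τ q} =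
        Set.univ := by
      refine Set.eq_univ_of_forall fun q => ⟨trivial, fun j => j.elim0, ?_⟩
      rintro ⟨⟨i, _⟩, _⟩
      exact i.elim0
    show (Box 3 (Fin.elim0 : Fin 0 → ℕ) : Set (Fin 0 → HeightOneSpectrum (𝓞 F))).Finite ∧ _ ∧ _
    rw [h0, h1, h2]
    have h3 : (Set.univ : Set (Fin 0 → HeightOneSpectrum (𝓞 F))).ncard = 1 := by
      rw [Set.ncard_univ, Nat.card_unique]
    refine ⟨Set.toFinite _, ?_, ?_⟩
    · rw [h3]
      norm_num
    · rw [h3]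
      norm_num
      exact hε.le
  | succ k ih =>
    intro τ h0 ε hε
    refine nest_mono k ?_ (ih (res τ) (fun j => h0 _) (ε / 2) (by positivity))
    rintro X ⟨h1, h2, h3⟩
    exact step hCH hζ hn hb τ h0 hε h1 h2 h3

end

open Classical in
/-- JOB N2. -/
theorem p1n (hCH : S_CHN) : S_P1N := by
  intro F _ _ _ ζ θ hζ n hn π hb' k A G c hA0 hG0 hA hc
  have hb : Pool.Agent.H40.SH.Gd 3 3 2 ![ζ, θ] π := ⟨hb'.ue, hb'.uo, hb'.ind, hb'.po⟩
  obtain ⟨M, hM⟩ : ∃ M : ℝ, M = 1 / (3 : ℝ) ^ (k * 1 + k * (k - 1) / 2) := ⟨_, rfl⟩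
  have hM0 : 0 < M := by rw [hM]; positivity
  obtain ⟨D, hD⟩ : ∃ D : ℝ, D = G.card + |c| * A.card + A.card + 1 := ⟨_, rfl⟩
  have hD0 : 0 < D := by
    rw [hD]
    have : (0 : ℝ) ≤ G.card := Nat.cast_nonneg _
    have h2 : (0 : ℝ) ≤ A.card := Nat.cast_nonneg _
    have h3 : 0 ≤ |c| * A.card := mul_nonneg (abs_nonneg _) h2
    linarith
  obtain ⟨δ, hδ⟩ : ∃ δ : ℝ, δ = min 1 (G.card - c * A.card) := ⟨_, rfl⟩
  have hδ0 : 0 < δ := by
    rw [hδ]
    exact lt_min one_pos (by linarith)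
  have hδ1 : δ ≤ 1 := hδ ▸ min_le_left _ _
  have hδ2 : δ ≤ G.card - c * A.card := hδ ▸ min_le_right _ _
  obtain ⟨ε, hε⟩ : ∃ ε : ℝ, ε = M * δ / (2 * D) := ⟨_, rfl⟩
  have hε0 : 0 < ε := by rw [hε]; positivity
  have hεD : ε * D = M * δ / 2 := by
    rw [hε]
    field_simp
  have h1 : Nest k fun X => ∀ τ ∈ ((Finset.univ : Finset (Tab 3 2 k)).filter fun τ => ∀ j, τ.1 j 0 = 0),
      (Box 3 X : Set (Fin k → HeightOneSpectrum (𝓞 F))).Finite ∧
      0 < ((BoxN n X : Set (Fin k → HeightOneSpectrum (𝓞 F))).ncard : ℝ) ∧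
      |({q ∈ (BoxN n X : Set (Fin k → HeightOneSpectrum (𝓞 F))) | Tb ζ ![ζ, θ] π τ q}.ncard : ℝ) /
        ((BoxN n X : Set (Fin k → HeightOneSpectrum (𝓞 F))).ncard : ℝ) -
          1 / (3 : ℝ) ^ (k * 1 + k * (k - 1) / 2)| ≤ ε :=
    Pool.Agent.Q14.LK.nest_all k _ _ fun τ hτ =>
      nest hCH hζ hn hb k τ (Finset.mem_filter.1 hτ).2 ε hε0
  refine nest_mono k ?_ h1
  intro X hX
  obtain ⟨τ0, hτ0⟩ := Finset.card_pos.1 hA
  obtain ⟨hfin', hpos, -⟩ := hX τ0 (Finset.mem_filter.2 ⟨Finset.mem_univ _, hA0 τ0 hτ0⟩)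
  have hfin : (BoxN n X : Set (Fin k → HeightOneSpectrum (𝓞 F))).Finite := hfin'.subset fun q hq => hq.1
  set B : ℝ := ((BoxN n X : Set (Fin k → HeightOneSpectrum (𝓞 F))).ncard : ℝ) with hBdef
  have hτ : ∀ τ : Tab 3 2 k, (∀ j, τ.1 j 0 = 0) →
      (M - ε) * B ≤ ({q ∈ (BoxN n X : Set (Fin k → HeightOneSpectrum (𝓞 F))) |
        Tb ζ ![ζ, θ] π τ q}.ncard : ℝ) ∧
      ({q ∈ (BoxN n X : Set (Fin k → HeightOneSpectrum (𝓞 F))) | Tb ζ ![ζ, θ] π τ q}.ncard : ℝ) ≤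
        (M + ε) * B := by
    intro τ h0
    have h2 := (hX τ (Finset.mem_filter.2 ⟨Finset.mem_univ _, h0⟩)).2.2
    rw [← hM, abs_le] at h2
    constructor
    · rw [← le_div_iff₀ hpos]
      linarith
    · rw [← div_le_iff₀ hpos]
      linarith
  have hsum : ∀ A : Finset (Tab 3 2 k), (∀ τ ∈ A, ∀ j, τ.1 j 0 = 0) →
      (A.card : ℝ) * ((M - ε) * B) ≤
        ({q ∈ (BoxN n X : Set (Fin k → HeightOneSpectrum (𝓞 F))) | ∃ τ ∈ A, Tb ζ ![ζ, θ] π τ q}.ncard : ℝ) ∧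
      ({q ∈ (BoxN n X : Set (Fin k → HeightOneSpectrum (𝓞 F))) | ∃ τ ∈ A, Tb ζ ![ζ, θ] π τ q}.ncard : ℝ) ≤
        A.card * ((M + ε) * B) := by
    intro A hA'
    rw [Pool.Agent.H40.SH.ncard_sum hfin A, Nat.cast_sum]
    constructor
    · rw [← nsmul_eq_mul, ← Finset.sum_const]
      exact Finset.sum_le_sum fun τ h => (hτ τ (hA' τ h)).1
    · rw [← nsmul_eq_mul, ← Finset.sum_const]
      exact Finset.sum_le_sum fun τ h => (hτ τ (hA' τ h)).2
  have hMε : 0 < M - ε := by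
    have hD1 : 1 ≤ D := by
      rw [hD]
      have : (0 : ℝ) ≤ G.card := Nat.cast_nonneg _
      have h2 : (0 : ℝ) ≤ A.card := Nat.cast_nonneg _
      have h3 : 0 ≤ |c| * A.card := mul_nonneg (abs_nonneg _) h2
      linarith
    have h2 : ε * 1 ≤ ε * D := mul_le_mul_of_nonneg_left hD1 hε0.le
    have h3 : M * δ ≤ M * 1 := mul_le_mul_of_nonneg_left hδ1 hM0.le
    linarith
  refine ⟨hfin.subset fun q hq => hq.1, hfin.subset fun q hq => hq.1, ?_, ?_⟩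
  · have h2 : (0 : ℝ) < ({q ∈ (BoxN n X : Set (Fin k → HeightOneSpectrum (𝓞 F))) |
        ∃ τ ∈ A, Tb ζ ![ζ, θ] π τ q}.ncard : ℝ) := by
      refine lt_of_lt_of_le ?_ (hsum A hA0).1
      have : (0 : ℝ) < A.card := by exact_mod_cast hA
      positivity
    exact_mod_cast h2
  · set a : ℝ := ({q ∈ (BoxN n X : Set (Fin k → HeightOneSpectrum (𝓞 F))) |
        ∃ τ ∈ A, Tb ζ ![ζ, θ] π τ q}.ncard : ℝ) with ha
    set g : ℝ := ({q ∈ (BoxN n X : Set (Fin k → HeightOneSpectrum (𝓞 F))) |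
        ∃ τ ∈ G, Tb ζ ![ζ, θ] π τ q}.ncard : ℝ) with hg
    have hcA : c * a ≤ c * (A.card * (M * B)) + |c| * (A.card * (ε * B)) := by
      have h2 : |a - A.card * (M * B)| ≤ A.card * (ε * B) := by
        have := hsum A hA0
        rw [abs_le]
        constructor
        · have h3 := this.1
          linarith
        · have h3 := this.2
          linarith
      have h3 : c * (a - A.card * (M * B)) ≤ |c| * |a - A.card * (M * B)| := by
        rw [← abs_mul]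
        exact le_abs_self _
      have h4 := mul_le_mul_of_nonneg_left h2 (abs_nonneg c)
      linarith
    have h5 := (hsum G hG0).1
    have h6 : 0 < ((G.card : ℝ) - c * A.card) * (M * B) - (G.card + |c| * A.card) * (ε * B) := by
      have e1 : (G.card + |c| * A.card) * (ε * B) ≤ (ε * D) * B := by
        rw [hD]
        have h2 : (0 : ℝ) ≤ A.card := Nat.cast_nonneg _
        have h3 : 0 ≤ ε * B * (A.card + 1) := by positivity
        nlinarith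
      have e2 : δ * (M * B) ≤ ((G.card : ℝ) - c * A.card) * (M * B) :=
        mul_le_mul_of_nonneg_right hδ2 (by positivity)
      rw [hεD] at e1
      have e3 : 0 < δ * (M * B) := by positivity
      have e4 : M * δ / 2 * B = δ * (M * B) / 2 := by ring
      linarith
    have h7 : (G.card : ℝ) * ((M - ε) * B) - (c * (A.card * (M * B)) + |c| * (A.card * (ε * B))) =
      ((G.card : ℝ) - c * A.card) * (M * B) - (G.card + |c| * A.card) * (ε * B) := by ring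
    linarith

end Pool.Agent.H47.SH
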