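import Pool.Agent.H62.SH.Stm2
import Pool.Agent.H47.SH.Core2

set_option autoImplicit false

namespace Pool.Agent.H47.SH

/-- the good tables are more than a third of the admissible ones -/
theorem p3c : Pool.Agent.H62.SH.S_P3C := fun k e he => third k e he

end Pool.Agent.H47.SH
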